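import Pool.Agent.H61.KW.TB
import Pool.Agent.H61.KV.TE

/-!
# Kuiper board KW, row KIT: the basic facts
-/

open Topology Set
open Pool.Agent.H59 Pool.Agent.H64.LB Pool.Agent.H61.KU Pool.Agent.H61.KV Pool.Agent.H61.KW

namespace Pool.Agent.H42.KW.KIT

theorem pf_KIT (hCNC : T_CNC) (hP1N : T_P1N) (hMNS : T_MNS) (hST : T_ST) (hSTM : T_STM)
    (hSTJ : T_STJ) (hEOV : T_EOV) (hB2N : T_B2N) (h : T_XOU) : T_KIT := by
  intro V _ _ _ m hm
  obtain ⟨hC, hspan, hmC, hm0, hMhC, hcl, hsm, hexm⟩ := hCNC V m hm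
  -- points of the relative interior
  have key : ∀ q p, q ∈ Cn m → Ms m p → Fc (Cn m) p = Fc (Cn m) q →
      q ∈ Fc (Cn m) p ∧ p ∈ Fc (Cn m) q := by
    intro q p hq hp hpq
    refine ⟨?_, ?_⟩
    · rw [hpq]
      exact self hC hq
    · rw [← hpq]
      exact self hC hp.1
  have rank4 : ∀ p, Ms m p → rk (Cn m) p = 4 := fun p hp => (hP1N V m hm p hp).1
  have ovc : ∀ q p r, q ∈ Cn m → Ms m p → Fc (Cn m) p = Fc (Cn m) q →
      (Ov (Cn m) q r ↔ Ov (Cn m) p r) := by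
    intro q p r hq hp hpq
    obtain ⟨h1, h2⟩ := key q p hq hp hpq
    constructor
    · intro h3 ξ h4 h5 h6
      exact h3 ξ h4 (fun_zero h4 h5 (mem_sp h1)) h6
    · intro h3 ξ h4 h5 h6
      exact h3 ξ h4 (fun_zero h4 h5 (mem_sp h2)) h6
  refine
    { cfg := hm
      cc := hC
      fin := hm.rank
      span := hspan
      closed := hcl
      mhC := hMhC
      smul := hsm
      ex := ?_
      mem := fun q hq => hq.1
      congr := ?_
      rk4 := ?_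
      bd := ?_
      nsub := ?_
      low := ?_
      ef := ?_
      exi := ?_
      ftd := ?_
      footM := ?_
      ovf := ?_
      tr := ?_
      meet := ?_ }
  · intro x hx
    obtain ⟨y, hy⟩ := hexm x hx.1 hx.2.1
    obtain ⟨c, hc, hcy⟩ := ex_mem hC hx hy
    have hc0 : c ≠ 0 := by
      rintro rfl
      rw [zero_smul] at hcy
      exact hm0 y hcy
    refine ⟨c⁻¹, y, inv_nonneg.2 hc, ?_⟩
    rw [hcy, smul_smul, inv_mul_cancel₀ hc0, one_smul]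
  · rintro q r ⟨hq, p, hp, hpq⟩ hr hqr
    refine ⟨mem_C hr, p, hp, ?_⟩
    rw [hpq]
    exact (fc_eq hC hq hr hqr).symm
  · rintro q ⟨hq, p, hp, hpq⟩
    rw [← rank4 p hp]
    unfold Pool.Agent.H61.KW.rk Sp
    rw [hpq]
  · rintro q r ⟨hq, p, hp, hpq⟩ hr hqr
    obtain ⟨h1, h2⟩ := key q p hq hp hpq
    rcases hp.2.2 r (by rw [hpq]; exact hr) with h3 | h3
    · exact absurd (tra hC (mem_C hr) h3 h1) hqr
    · exact h3
  · rintro q ⟨hq, p, hp, hpq⟩ hsub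
    exact hp.2.1 (hsub (key q p hq hp hpq).2)
  · intro r hr hrk
    by_contra hsub
    obtain ⟨p, hpr, hp⟩ := hMNS V m hm r hr hsub
    have h1 := rk_mono hC hr hpr
    rw [rank4 p hp] at h1
    omega
  · intro r hr hrk hsub
    obtain ⟨p, hpr, hp⟩ := hMNS V m hm r hr hsub
    refine ⟨hr, p, hp, fc_eq hC hr hpr ?_⟩
    refine of_rk hC hr hpr ?_
    rw [rank4 p hp, hrk]
  · intro r hr hsub
    obtain ⟨p, hpr, hp⟩ := hMNS V m hm r hr hsub
    exact ⟨p, hpr, hp.1, p, hp, rfl⟩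
  · rintro q ⟨hq, p, hp, hpq⟩
    obtain ⟨h1, h2⟩ := key q p hq hp hpq
    refine ⟨hq, fun r hr => ?_⟩
    obtain ⟨g, hg⟩ := hST V m hm p hp r hr
    exact ⟨g, foot_congr hC hp.1 h1 h2 hg⟩
  · rintro q r g ⟨hq, p, hp, hpq⟩ hg
    obtain ⟨h1, h2⟩ := key q p hq hp hpq
    exact (hSTM V m hm p hp r g (foot_congr hC hq h2 h1 hg)).2
  · rintro q r ⟨hq, p, hp, hpq⟩ hr hov
    obtain ⟨h1, h2⟩ := key q p hq hp hpq
    have h3 := hSTJ V m hm p hp r hr ((ovc q p r hq hp hpq).1 hov)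
    exact ⟨hMhC hr, foot_congr hC hp.1 h1 h2 h3, hov⟩
  · rintro q ⟨hq, p, hp, hpq⟩
    obtain ⟨h1, h2⟩ := key q p hq hp hpq
    obtain ⟨γ, h3, h4⟩ := hEOV V m hm p hp
    exact ⟨γ, foot_memC hC hp.1 h3, foot_congr hC hp.1 h1 h2 h3, (ovc q p γ hq hp hpq).2 h4⟩
  · rintro q q' ⟨hq, p, hp, hpq⟩ ⟨hq', p', hp', hpq'⟩
    obtain ⟨w, hw0, hw, hw'⟩ := hB2N V m hm p p' hp hp'
    rw [hpq] at hw
    rw [hpq'] at hw'
    obtain ⟨x, hx, hxw, -⟩ := h V (Cn m) {0} w hC (mem_C hw) (mem_singleton 0)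
      (by
        intro a ha b hb
        rw [mem_singleton_iff] at ha hb ⊢
        rw [ha, hb, add_zero]) (by simpa using hw0)
    exact ⟨x, hx, tra hC hq hw hxw, tra hC hq' hw' hxw⟩

end Pool.Agent.H42.KW.KIT
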